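import Pool.Agent.MP_815355_co.Mg.Main

open Pool.Agent.MP_815355_co

/-- `(Φ_𝓕, ⪯)` contains an antichain indexed by the subsets of `ℕ`. -/
theorem Pool.Agent.Results.MP_815355_co.Antichain.result :
    ∃ φ : Set ℕ → Graphon, (∀ A, φ A ∈ Phi) ∧ ∀ A B, A ≠ B → ¬ SubObject (φ A) (φ B) :=
  ⟨fun A => WG (levels A), levels_mem_Phi, fun _ _ => levels_not_subObject⟩
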